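import Pool.Agent.MP_ca0a54_nt.H24.Spec

/-!
Row SF: the logarithmic derivative of `zf` below the real line is bounded by a Dirichlet
polynomial over prime powers.
-/

open Complex MeasureTheory Filter Topology

namespace Pool.Agent.MP_ca0a54_nt.H22

open Pool.Agent.MP_ca0a54_nt.L0 Pool.Agent.MP_ca0a54_nt.H24

/-- The coefficients of `ld z - c`. -/
noncomputable def dc (c : ℂ) (n : ℕ) : ℂ :=
  -I * ((ArithmeticFunction.vonMangoldt n : ℝ) : ℂ) - if n = 1 then c else 0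

lemma np_one (z : ℂ) : np z 1 = 1 := by simp [np]

lemma dp_one (c : ℕ → ℂ) (w : ℂ) : dp c 1 w = c 1 := by simp [dp, ds, np_one]

lemma cv_cut (d : ℕ → ℂ) (n : ℕ) (hn : n ≠ 0) : cv d (cut (fun _ => 1) 1) n = d n := by
  rw [cv, LSeries.convolution_def]
  simp only
  rw [Finset.sum_eq_single (n, 1)]
  · simp [cut]
  · rintro ⟨p, q⟩ hp hne
    rw [Nat.mem_divisorsAntidiagonal] at hp
    have hq : ¬ q ≤ 1 := by
      intro hq
      rcases Nat.le_one_iff_eq_zero_or_eq_one.1 hq with rfl | rfl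
      · exact hn (by simpa using hp.1.symm)
      · exact hne (by simpa using hp.1)
    simp [cut, hq]
  · intro h
    exact absurd (Nat.mem_divisorsAntidiagonal.2 ⟨by simp, hn⟩) h

lemma ld_eq (z : ℂ) (hz : z.im < -1 / 2) :
    ld z = -I * LSeries (fun n => ((ArithmeticFunction.vonMangoldt n : ℝ) : ℂ)) (1 / 2 + I * z) := by
  have hs : 1 < (1 / 2 + I * z : ℂ).re := by simp; linarith
  have hne : (1 / 2 + I * z : ℂ) ≠ 1 := by
    intro h; rw [h] at hs; simp at hs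
  rw [ArithmeticFunction.LSeries_vonMangoldt_eq_deriv_riemannZeta_div hs]
  have h1 : HasDerivAt (fun w : ℂ => 1 / 2 + I * w) I z := by
    simpa using ((hasDerivAt_id z).const_mul I).const_add (1 / 2)
  have h2 : HasDerivAt zf (deriv riemannZeta (1 / 2 + I * z) * I) z :=
    (differentiableAt_riemannZeta hne).hasDerivAt.comp z h1
  rw [ld, h2.deriv, zf]
  ring

lemma lseries_dc (c z : ℂ) (hz : z.im < -1 / 2) : LSeries (dc c) (1 / 2 + I * z) = ld z - c := by
  have hs : 1 < (1 / 2 + I * z : ℂ).re := by simp; linarith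
  have h1 := (ArithmeticFunction.LSeriesSummable_vonMangoldt hs).LSeriesHasSum
  have h2 : LSeriesHasSum (fun n => if n = 1 then c else 0) (1 / 2 + I * z) c := by
    have := hasSum_single (f := LSeries.term (fun n => if n = 1 then c else 0) (1 / 2 + I * z)) 1
      (fun n hn => by simp [LSeries.term, hn])
    simpa [LSeries.term, LSeriesHasSum] using this
  have h3 := (h1.smul (-I)).sub h2
  rw [ld_eq z hz]
  exact h3.LSeries_eq

lemma ld_bound : ∃ Z : ℝ, 0 ≤ Z ∧ ∀ z : ℂ, z.im = -(9 / 16) → ‖ld z‖ ≤ Z := by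
  have hs : 1 < (((17 / 16 : ℝ) : ℂ)).re := by simp; norm_num
  have h1 := (ArithmeticFunction.LSeriesSummable_vonMangoldt hs).norm
  refine ⟨_, h1.hasSum.nonneg fun _ => norm_nonneg _, fun z hz => ?_⟩
  rw [ld_eq z (by rw [hz]; norm_num), norm_mul, norm_neg, norm_I, one_mul]
  refine tsum_of_norm_bounded h1.hasSum fun n => ?_
  refine LSeries.norm_term_le_of_re_le_re _ ?_ n
  simp [hz]; norm_num

lemma norm_dc (c : ℂ) (L : ℝ) (hL : 32 ≤ L ^ 2) (hc : ‖c‖ ≤ L ^ 2) (n : ℕ) :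
    ‖dc c n‖ ≤ L ^ 2 * Real.exp (1 / 2 / 16 * Real.log n) := by
  by_cases h : n = 1
  · subst h
    simpa [dc] using hc
  · have h0 : 0 ≤ Real.log n := Real.log_natCast_nonneg n
    have h1 : ‖dc c n‖ = ArithmeticFunction.vonMangoldt n := by
      simp [dc, h, abs_of_nonneg ArithmeticFunction.vonMangoldt_nonneg]
    have h2 : ArithmeticFunction.vonMangoldt n ≤ Real.log n :=
      ArithmeticFunction.vonMangoldt_le_log
    have h3 := Real.add_one_le_exp (1 / 2 / 16 * Real.log n)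
    rw [h1]
    nlinarith [Real.exp_pos (1 / 2 / 16 * Real.log n)]

lemma km_le (Δ t s u : ℝ) (hΔ : 0 < Δ) :
    km Δ ((u : ℂ) - (t - s * I)) ≤ 1 / Δ * (1 / ((t - u) ^ 2 + s ^ 2)) := by
  have h1 : ‖(u : ℂ) - (t - s * I)‖ ^ 2 = (t - u) ^ 2 + s ^ 2 := by
    rw [Complex.sq_norm, Complex.normSq_apply]
    simp
    ring
  have h2 : Real.exp (-((u : ℂ) - (t - s * I)).re ^ 2) ≤ 1 :=
    Real.exp_le_one_iff.2 (neg_nonpos.2 (sq_nonneg _))
  have h3 : 0 ≤ min (1 / ‖(u : ℂ) - (t - s * I)‖) (1 / (Δ * ‖(u : ℂ) - (t - s * I)‖ ^ 2)) :=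
    le_min (by positivity) (by positivity)
  calc km Δ ((u : ℂ) - (t - s * I))
      ≤ 1 * min (1 / ‖(u : ℂ) - (t - s * I)‖) (1 / (Δ * ‖(u : ℂ) - (t - s * I)‖ ^ 2)) :=
        mul_le_mul_of_nonneg_right h2 h3
    _ ≤ 1 / (Δ * ‖(u : ℂ) - (t - s * I)‖ ^ 2) := by rw [one_mul]; exact min_le_right _ _
    _ = _ := by rw [h1, one_div_mul_one_div]

lemma ev_log (A : ℝ) : ∀ᶠ T : ℝ in atTop, A ≤ Real.log T :=
  Real.tendsto_log_atTop.eventually_ge_atTop A

lemma ev_small (A : ℝ) (hA : 0 < A) : ∀ᶠ T : ℝ in atTop, A * Real.log T / T ≤ 1 := by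
  have h := Real.isLittleO_log_id_atTop.bound (c := 1 / A) (by positivity)
  filter_upwards [h, eventually_ge_atTop (1 : ℝ)] with T h1 hT
  have hT0 : 0 < T := by linarith
  simp only [Real.norm_eq_abs, id] at h1
  rw [abs_of_nonneg (Real.log_nonneg hT), abs_of_pos hT0] at h1
  rw [div_le_one hT0]
  calc A * Real.log T ≤ A * (1 / A * T) := mul_le_mul_of_nonneg_left h1 hA.le
    _ = T := by field_simp

theorem sf : SepStmt → LineStmt → GklStmt → Ar1Stmt → SfStmt := by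
  intro hsep hline hgkl _ C hC
  obtain ⟨C', hC', hl⟩ := hline C hC
  obtain ⟨C₀, hC₀, hg⟩ := hgkl
  obtain ⟨Z, hZ, hZ'⟩ := ld_bound
  have hlog5 : 0 ≤ Real.log 5 := Real.log_nonneg (by norm_num)
  have hpos : 0 ≤ C₀ * (1 + Real.log 5) := by positivity
  refine ⟨98 + C₀ * (1 + Real.log 5), by linarith, ?_⟩
  filter_upwards [hl, hg (1 / 2) (by norm_num) le_rfl, ev_log 8, ev_log C,
    ev_log (C' * (1 + Z)), ev_small C' (by linarith), eventually_ge_atTop (1 : ℝ)]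
    with T hl hg hL8 hLC hLZ hsm hT
  have hT0 : 0 < T := by linarith
  set L := Real.log T with hL
  have hL0 : 0 < L := by linarith
  have hx1 : 1 ≤ T ^ (3 / 4 : ℝ) := Real.one_le_rpow hT (by norm_num)
  have hxT : T ^ (3 / 4 : ℝ) ≤ T := by
    simpa using Real.rpow_le_rpow_of_exponent_le hT (show (3 / 4 : ℝ) ≤ 1 by norm_num)
  have hfl : T ^ (3 / 4 : ℝ) / 2 ≤ (⌊T ^ (3 / 4 : ℝ)⌋₊ : ℝ) := by
    have h1 := Nat.lt_floor_add_one (T ^ (3 / 4 : ℝ))
    have h2 : (1 : ℝ) ≤ (⌊T ^ (3 / 4 : ℝ)⌋₊ : ℝ) := by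
      exact_mod_cast Nat.le_floor (by simpa using hx1)
    linarith
  have hlogN : 3 / 4 * L - 1 ≤ Real.log (⌊T ^ (3 / 4 : ℝ)⌋₊ : ℝ) := by
    have h1 := Real.log_le_log (by linarith) hfl
    rw [Real.log_div (by linarith) (by norm_num), Real.log_rpow hT0] at h1
    have h2 := Real.log_two_lt_d9
    linarith
  obtain ⟨χ, hχ, hG⟩ := hg (L / 4) (L / 4) 1 ⌊T ^ (3 / 4 : ℝ)⌋₊ le_rfl
    (by simp only [Nat.cast_one, Real.log_one]; linarith) (by linarith) (by linarith)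
    ((Nat.floor_le (by linarith)).trans hxT)
  have h5 : (1 : ℝ) + L / (L / 4) = 5 := by field_simp; norm_num
  rw [h5] at hχ
  refine ⟨χ, fun n => by linarith [hχ n], ?_⟩
  intro a δ t s U h ha1 ha4 haδ hcl hlf has hs
  have ha0 : 0 < a := lt_of_lt_of_le (by positivity) ha1
  have hs0 : 0 < s := by linarith
  obtain ⟨-, hl2, hl3⟩ := hl a δ t U h ha1 ha4 haδ hcl hlf
  have him : ((t : ℂ) - s * I).im = -s := by simp
  have hre : ((t : ℂ) - s * I).re = t := by simp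
  have hd1 : ‖deriv h t‖ ≤ L ^ 2 := by
    have := hlf.d1 t (Metric.mem_ball_self (Real.sqrt_pos.2 hT0))
    nlinarith
  have happ : App T (1 / 2) ((t : ℂ) - s * I).re 0 U (fun _ => 1) (fun u => u)
      (dc (deriv h t)) := by
    refine ⟨norm_dc _ L (by nlinarith) hd1, fun x => ?_⟩
    have hz : ((x : ℂ) - (1 / 2 + 1 / 2 / 8 : ℝ) * I).im = -(9 / 16) := by
      simp only [sub_im, ofReal_im, mul_im, ofReal_re, I_im, mul_one, I_re, mul_zero]
      norm_num
    have hzr : ((x : ℂ) - (1 / 2 + 1 / 2 / 8 : ℝ) * I).re = x := by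
      simp only [sub_re, ofReal_im, mul_re, ofReal_re, I_im, mul_one, I_re, mul_zero]
      norm_num
    rw [lseries_dc _ _ (by rw [hz]; norm_num), hre]
    have h1 := hl2 _ (by rw [hz]; norm_num) (by rw [hz]; norm_num)
    rw [hzr] at h1
    refine h1.trans (mul_le_mul_of_nonneg_right ?_ (Real.exp_pos _).le)
    have h2 := hZ' _ hz
    calc C' * L / T * (1 + ‖ld ((x : ℂ) - (1 / 2 + 1 / 2 / 8 : ℝ) * I)‖)
        ≤ C' * L / T * (1 + Z) := by gcongr
      _ = C' * (1 + Z) * L / T := by ring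
      _ ≤ L * L / T := by gcongr
      _ ≤ L ^ 3 / T := by gcongr; nlinarith
  have h1 := hG 0 U (fun _ => 1) (fun u => u) (dc (deriv h t)) (fun _ => 1) (t - s * I)
    (by simp) (by rw [him]; linarith) (by rw [him, abs_neg, abs_of_pos hs0]; exact hs) happ
  have h2 := hl3 (t - s * I) (by simp [abs_of_pos hs0]; linarith) (by rw [him]; linarith)
  have e1 : ds (fun n => cv (dc (deriv h t)) (cut (fun _ => 1) 1) n * χ n)
      (Finset.Ioc 1 ⌊T ^ (3 / 4 : ℝ)⌋₊) (t - s * I) =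
      -I * ds (fun n => (ArithmeticFunction.vonMangoldt n : ℝ) * χ n)
        (Finset.Ioc 1 ⌊T ^ (3 / 4 : ℝ)⌋₊) (t - s * I) := by
    simp only [ds, Finset.mul_sum]
    refine Finset.sum_congr rfl fun n hn => ?_
    have hn1 : 1 < n := (Finset.mem_Ioc.1 hn).1
    rw [cv_cut _ _ (by omega), dc, if_neg (by omega)]
    ring
  have e2 : dc (deriv h t) 1 = -deriv h t := by simp [dc]
  simp only [dp_one, cv_cut _ 1 one_ne_zero, e1, e2, mul_one, abs_one, norm_one, one_mul,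
    him] at h1
  have hmax : max (Real.exp (L / 4 * -s)) (Real.exp ((L / 4 + L / 4) * -s)) ≤ 1 :=
    max_le (Real.exp_le_one_iff.2 (by nlinarith)) (Real.exp_le_one_iff.2 (by nlinarith))
  have hsum : ∑ u ∈ U, km (L / 4) ((u : ℂ) - (t - s * I)) ≤ 24 / s := by
    have h3 := hsep U a s t ha0 has fun u hu u' hu' hne =>
      haδ.le.trans (hcl.sep u hu u' hu' hne)
    have h4 : 1 ≤ a * L := by rwa [div_le_iff₀ hL0] at ha1
    calc ∑ u ∈ U, km (L / 4) ((u : ℂ) - (t - s * I))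
        ≤ ∑ u ∈ U, 1 / (L / 4) * (1 / ((t - u) ^ 2 + s ^ 2)) :=
          Finset.sum_le_sum fun u _ => km_le _ _ _ _ (by positivity)
      _ = 1 / (L / 4) * ∑ u ∈ U, 1 / ((t - u) ^ 2 + s ^ 2) := by rw [Finset.mul_sum]
      _ ≤ 1 / (L / 4) * (6 / (a * s)) := by gcongr
      _ = 24 / (a * L * s) := by field_simp; norm_num
      _ ≤ 24 / (1 * s) := by gcongr
      _ = 24 / s := by rw [one_mul]
  have hsum0 : 0 ≤ ∑ u ∈ U, km (L / 4) ((u : ℂ) - (t - s * I)) :=
    Finset.sum_nonneg fun u _ => mul_nonneg (Real.exp_pos _).le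
      (le_min (by positivity) (by positivity))
  have hT4 : T ^ (-(1 / 4) : ℝ) ≤ 1 := Real.rpow_le_one_of_one_le_of_nonpos hT (by norm_num)
  have hs1 : 1 ≤ 1 / s := by rw [le_div_iff₀ hs0]; linarith
  set D := ds (fun n => (ArithmeticFunction.vonMangoldt n : ℝ) * χ n)
    (Finset.Ioc 1 ⌊T ^ (3 / 4 : ℝ)⌋₊) (t - s * I) with hD
  set R := rat 0 U (fun _ => 1) (fun u => u) (t - s * I) with hR
  have h6 : ‖R - -deriv h t - -I * D‖ ≤ 96 / s + 1 := by
    refine h1.trans (add_le_add ?_ hT4)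
    calc _ ≤ 4 * 1 * (24 / s) := by gcongr
      _ = 96 / s := by ring
  have h7 : ld (t - s * I) = (R - -deriv h t - -I * D) - (R - (ld (t - s * I) - deriv h t)) +
      -I * D := by ring
  have h8 : ‖ld (t - s * I)‖ ≤ 96 / s + 1 + 1 + ‖D‖ := by
    rw [h7]
    refine (norm_add_le _ _).trans (add_le_add ((norm_sub_le _ _).trans
      (add_le_add h6 (h2.trans hsm))) (by simp))
  have h9 : 0 ≤ C₀ * (1 + Real.log 5) / s := by positivity
  have h10 : (98 + C₀ * (1 + Real.log 5)) / s =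
      96 / s + 1 / s + 1 / s + C₀ * (1 + Real.log 5) / s := by ring
  linarith

end Pool.Agent.MP_ca0a54_nt.H22
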